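import Mathlib
import Pool.Agent.H97R2.BP.Defs

open scoped ComplexOrder InnerProductSpace ComplexConjugate TensorProduct
open Finset H759R2.Kad H710R2.DP

noncomputable section

namespace H97R2.BP.ZZ330

variable {H : Type} [NormedAddCommGroup H] [InnerProductSpace ℂ H] [CompleteSpace H]

/-- corner unitaries live in the corner -/
theorem hyp_right (u q : H →L[ℂ] H) (hq : IsPr q) (h : star u * u = q) : u * q = u := by
  have h1 : star (u * q - u) * (u * q - u) = 0 := by
    have e1 : star (u * q - u) * (u * q - u) =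
        star q * (star u * u) * q - star q * (star u * u) - (star u * u) * q + star u * u := by
      rw [star_sub, star_mul]; noncomm_ring
    rw [e1, h, hq.1, hq.2, hq.2]
    noncomm_ring
  have h2 := (CStarRing.star_mul_self_eq_zero_iff _).1 h1
  exact sub_eq_zero.1 h2

theorem hyp_left (u q : H →L[ℂ] H) (hq : IsPr q) (h : u * star u = q) : q * u = u := by
  have h1 := hyp_right (star u) q hq (by rw [star_star]; exact h)
  have h2 := congrArg star h1
  rw [star_mul, star_star, hq.1] at h2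
  exact h2

/-- the commutation property for corner unitaries -/
theorem hyp_unit (M : VonNeumannAlgebra H) (q : H →L[ℂ] H) (hq : IsPr q)
    (ψ : (H →L[ℂ] H) →ₗ[ℂ] ℂ) (hs : ∀ x, ψ (q * x * q) = ψ x)
    (hi : ∀ u ∈ M, star u * u = q → u * star u = q → ∀ x, ψ (u * x * star u) = ψ x)
    (u : H →L[ℂ] H) (hu : u ∈ M) (h1 : star u * u = q) (h2 : u * star u = q)
    (x : H →L[ℂ] H) : ψ (u * x) = ψ (x * u) := by
  have e1 := hi u hu h1 h2 (x * u)
  have e2 : u * (x * u) * star u = u * x * q := by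
    rw [← h2]; noncomm_ring
  rw [e2] at e1
  rw [← e1, ← hs (u * x)]
  rw [show q * (u * x) * q = (q * u) * x * q by noncomm_ring, hyp_left u q hq h2]

/-- the commutation property for the corner -/
theorem hyp_corner (M : VonNeumannAlgebra H) (q : H →L[ℂ] H) (hq : IsPr q) (hqM : q ∈ M)
    (ψ : (H →L[ℂ] H) →ₗ[ℂ] ℂ) (hs : ∀ x, ψ (q * x * q) = ψ x)
    (hi : ∀ u ∈ M, star u * u = q → u * star u = q → ∀ x, ψ (u * x * star u) = ψ x)
    (b : H →L[ℂ] H) (hb : b ∈ M) (hb1 : q * b = b) (hb2 : b * q = b)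
    (x : H →L[ℂ] H) : ψ (b * x) = ψ (x * b) := by
  let N : StarSubalgebra ℂ (H →L[ℂ] H) := M.toStarSubalgebra ⊓ StarSubalgebra.centralizer ℂ {q}
  have hN : ∀ y : H →L[ℂ] H, y ∈ N ↔ y ∈ M ∧ q * y = y * q := by
    intro y
    change (y ∈ M ∧ y ∈ StarSubalgebra.centralizer ℂ {q}) ↔ _
    rw [StarSubalgebra.mem_centralizer_iff]
    constructor
    · rintro ⟨h1, h2⟩
      exact ⟨h1, (h2 q rfl).1⟩
    · rintro ⟨h1, h2⟩
      refine ⟨h1, fun g hg => ?_⟩
      have : g = q := hg
      subst this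
      exact ⟨h2, by rw [hq.1]; exact h2⟩
  have hclosed : IsClosed (N : Set (H →L[ℂ] H)) := by
    have e : (N : Set (H →L[ℂ] H)) = (M : Set (H →L[ℂ] H)) ∩ {y | q * y = y * q} := by
      ext y
      exact hN y
    rw [e]
    refine IsClosed.inter ?_ ?_
    · have : (M : Set (H →L[ℂ] H)) = Set.centralizer (Set.centralizer (M : Set (H →L[ℂ] H))) :=
        M.centralizer_centralizer'.symm
      rw [this]
      exact Set.isClosed_centralizer _
    · exact isClosed_eq (continuous_const.mul continuous_id) (continuous_id.mul continuous_const)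
  have : IsClosed (N : Set (H →L[ℂ] H)) := hclosed
  have : Fact (IsClosed (N : Set (H →L[ℂ] H))) := ⟨hclosed⟩
  have hsp := CStarAlgebra.span_unitary (A := N)
  have key : ∀ n : N, ∀ x : H →L[ℂ] H, ψ ((n : H →L[ℂ] H) * q * x) = ψ (x * ((n : H →L[ℂ] H) * q)) := by
    intro n
    have hn : n ∈ Submodule.span ℂ (unitary N : Set N) := by rw [hsp]; trivial
    induction hn using Submodule.span_induction with
    | mem U hU =>
      intro x
      have hUm := (hN (U : H →L[ℂ] H)).1 U.2
      have hU1 : star (U : H →L[ℂ] H) * U = 1 := by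
        have := (Unitary.mem_iff.1 hU).1
        exact congrArg (fun z : N => (z : H →L[ℂ] H)) this
      have hU2 : (U : H →L[ℂ] H) * star (U : H →L[ℂ] H) = 1 := by
        have := (Unitary.mem_iff.1 hU).2
        exact congrArg (fun z : N => (z : H →L[ℂ] H)) this
      apply hyp_unit M q hq ψ hs hi ((U : H →L[ℂ] H) * q) (mul_mem hUm.1 hqM)
      · rw [star_mul, hq.1, show q * star (U : H →L[ℂ] H) * ((U : H →L[ℂ] H) * q) =
          q * (star (U : H →L[ℂ] H) * U) * q by noncomm_ring, hU1, mul_one, hq.2]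
      · rw [star_mul, hq.1, show (U : H →L[ℂ] H) * q * (q * star (U : H →L[ℂ] H)) =
          (U : H →L[ℂ] H) * (q * q) * star (U : H →L[ℂ] H) by noncomm_ring, hq.2, ← hUm.2,
          mul_assoc, hU2, mul_one]
    | zero => intro x; simp
    | add a c _ _ ha hc =>
      intro x
      have e1 : ((a + c : N) : H →L[ℂ] H) = (a : H →L[ℂ] H) + c := rfl
      rw [e1, add_mul, add_mul, mul_add, map_add, map_add, ha, hc]
    | smul r a _ ha =>
      intro x
      have e1 : ((r • a : N) : H →L[ℂ] H) = r • (a : H →L[ℂ] H) := rfl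
      rw [e1, smul_mul_assoc, smul_mul_assoc, mul_smul_comm, map_smul, map_smul, ha]
  have hbN : b ∈ N := (hN b).2 ⟨hb, by rw [hb1, hb2]⟩
  have := key ⟨b, hbN⟩ x
  simp only at this
  rw [hb2] at this
  exact this

end H97R2.BP.ZZ330

namespace H97R2.BP

/-- HYP: from the corner to the whole piece. -/
theorem bp_hyp : Z_hyp := by
  intro H _ _ _ M z hz L e he ⟨ψ, hpos, hone, hs, hi⟩
  set q := e 0 0 with hqdef
  have hq : IsPr q := ⟨he.adj 0 0, by rw [hqdef, he.mul 0 0 0 0, if_pos rfl]⟩
  have hqM : q ∈ M := he.mem 0 0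
  have hcomm : ∀ a ∈ M, z * a = a * z := hz.2.2
  -- products with matrix units
  have e1 : ∀ i, e 0 i * z = e 0 i := by
    intro i
    rw [← he.sum, Finset.mul_sum, Finset.sum_eq_single i]
    · rw [he.mul, if_pos rfl]
    · intro j _ hj
      rw [he.mul, if_neg (Ne.symm hj)]
    · intro h; exact absurd (Finset.mem_univ i) h
  have e2 : ∀ i, z * e i 0 = e i 0 := by
    intro i
    rw [← he.sum, Finset.sum_mul, Finset.sum_eq_single i]
    · rw [he.mul, if_pos rfl]
    · intro j _ hj
      rw [he.mul, if_neg hj]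
    · intro h; exact absurd (Finset.mem_univ i) h
  have e3 : ∑ j, e j 0 * e 0 j = z := by
    rw [← he.sum]
    apply Finset.sum_congr rfl
    intro j _
    rw [he.mul, if_pos rfl]
  let Ψ : (H →L[ℂ] H) →ₗ[ℂ] ℂ :=
    (((L : ℂ) + 1)⁻¹) • ∑ i, ψ ∘ₗ (LinearMap.mulLeft ℂ (e 0 i)) ∘ₗ (LinearMap.mulRight ℂ (e i 0))
  have hΨ : ∀ x, Ψ x = ((L : ℂ) + 1)⁻¹ * ∑ i, ψ (e 0 i * x * e i 0) := by
    intro x
    simp only [Ψ, LinearMap.smul_apply, LinearMap.sum_apply, LinearMap.comp_apply,
      LinearMap.mulLeft_apply, LinearMap.mulRight_apply, smul_eq_mul, mul_assoc]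
  have hL : ((L : ℂ) + 1) ≠ 0 := by
    have : ((L + 1 : ℕ) : ℂ) ≠ 0 := by exact_mod_cast Nat.succ_ne_zero L
    simpa using this
  refine ⟨Ψ, ?_, ?_, ?_, ?_⟩
  · intro x
    rw [hΨ]
    apply mul_nonneg
    · have : ((L : ℂ) + 1)⁻¹ = (((L : ℝ) + 1)⁻¹ : ℝ) := by push_cast; rfl
      rw [this]
      rw [Complex.zero_le_real]
      positivity
    · apply Finset.sum_nonneg
      intro i _
      have e4 : e 0 i * (star x * x) * e i 0 = star (x * e i 0) * (x * e i 0) := by
        rw [star_mul, he.adj]; noncomm_ring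
      rw [e4]
      exact hpos _
  · rw [hΨ]
    have e4 : ∀ i, ψ (e 0 i * z * e i 0) = 1 := by
      intro i
      rw [e1, he.mul, if_pos rfl]
      exact hone
    simp only [e4]
    simp
    exact inv_mul_cancel₀ hL
  · intro x
    rw [hΨ, hΨ]
    congr 1
    apply Finset.sum_congr rfl
    intro i _
    congr 1
    rw [show e 0 i * (z * x * z) * e i 0 = (e 0 i * z) * x * (z * e i 0) by noncomm_ring, e1, e2]
  · intro a ha x
    rw [hΨ, hΨ]
    congr 1
    have s1 : ∀ i, ψ (e 0 i * (a * x) * e i 0) =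
        ∑ j, ψ ((e 0 i * a * e j 0) * (e 0 j * x * e i 0)) := by
      intro i
      rw [← map_sum]
      congr 1
      have : ∑ j, (e 0 i * a * e j 0) * (e 0 j * x * e i 0) =
          e 0 i * a * (∑ j, e j 0 * e 0 j) * x * e i 0 := by
        rw [Finset.mul_sum, Finset.sum_mul, Finset.sum_mul]
        apply Finset.sum_congr rfl
        intro j _
        noncomm_ring
      rw [this, e3, show e 0 i * a * z * x * e i 0 = e 0 i * (a * z) * x * e i 0 by noncomm_ring,
        ← hcomm a ha, show e 0 i * (z * a) * x * e i 0 = (e 0 i * z) * a * x * e i 0 by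
          noncomm_ring, e1]
      noncomm_ring
    have s2 : ∀ j, ψ (e 0 j * (x * a) * e j 0) =
        ∑ i, ψ ((e 0 j * x * e i 0) * (e 0 i * a * e j 0)) := by
      intro j
      rw [← map_sum]
      congr 1
      have : ∑ i, (e 0 j * x * e i 0) * (e 0 i * a * e j 0) =
          e 0 j * x * (∑ i, e i 0 * e 0 i) * a * e j 0 := by
        rw [Finset.mul_sum, Finset.sum_mul, Finset.sum_mul]
        apply Finset.sum_congr rfl
        intro i _
        noncomm_ring
      rw [this, e3, show e 0 j * x * z * a * e j 0 = e 0 j * x * (z * a) * e j 0 by noncomm_ring,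
        hcomm a ha, show e 0 j * x * (a * z) * e j 0 = e 0 j * x * a * (z * e j 0) by
          noncomm_ring, e2]
      noncomm_ring
    rw [Finset.sum_congr rfl (fun i _ => s1 i), Finset.sum_congr rfl (fun j _ => s2 j),
      Finset.sum_comm]
    apply Finset.sum_congr rfl
    intro j _
    apply Finset.sum_congr rfl
    intro i _
    apply ZZ330.hyp_corner M q hq hqM ψ hs hi
    · exact mul_mem (mul_mem (he.mem 0 i) ha) (he.mem j 0)
    · rw [show q * (e 0 i * a * e j 0) = (q * e 0 i) * a * e j 0 by noncomm_ring, hqdef,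
        he.mul, if_pos rfl]
    · rw [mul_assoc, hqdef, he.mul, if_pos rfl]

end H97R2.BP
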